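import Pool.Agent.helper66.LIN.Spec

set_option autoImplicit false

/-! Row lin:GTF (MP_60c1a7_co): simple facts on gadgets -/

namespace LSH.Lin

theorem GTF_root (G : GT) : G.root ∈ G.pts := by
  cases G <;> simp [GT.root, GT.pts]

theorem GTF_edges (G : GT) (e : Edge) (he : e ∈ G.edges) : e.a ∈ G.pts ∧ e.b ∈ G.pts := by
  induction G with
  | leaf x => simp [GT.edges] at he
  | un x t => simp [GT.edges] at he
  | bl x s h g ih =>
    simp only [GT.edges, List.mem_cons] at he
    simp only [GT.pts, Multiset.mem_cons]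
    rcases he with rfl | he
    · exact ⟨Or.inl rfl, Or.inr (GTF_root g)⟩
    · exact ⟨Or.inr (ih he).1, Or.inr (ih he).2⟩
  | br x h g t ih =>
    simp only [GT.edges, List.mem_cons] at he
    simp only [GT.pts, Multiset.mem_cons]
    rcases he with rfl | he
    · exact ⟨Or.inl rfl, Or.inr (GTF_root g)⟩
    · exact ⟨Or.inr (ih he).1, Or.inr (ih he).2⟩
  | bb x h g k g' ih ih' =>
    simp only [GT.edges, List.mem_append, List.mem_cons] at he
    simp only [GT.pts, Multiset.mem_cons, Multiset.mem_add]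
    rcases he with (rfl | he) | (rfl | he)
    · exact ⟨Or.inl rfl, Or.inr (Or.inl (GTF_root g))⟩
    · exact ⟨Or.inr (Or.inl (ih he).1), Or.inr (Or.inl (ih he).2)⟩
    · exact ⟨Or.inl rfl, Or.inr (Or.inr (GTF_root g'))⟩
    · exact ⟨Or.inr (Or.inr (ih' he).1), Or.inr (Or.inr (ih' he).2)⟩

theorem GTF_pend (G : GT) (i : Pt × BT) (hi : i ∈ G.pend) : i.1 ∈ G.pts := by
  induction G with
  | leaf x => simp [GT.pend] at hi
  | un x t =>
    simp only [GT.pend, Multiset.mem_singleton] at hi
    simp [GT.pts, hi]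
  | bl x s h g ih =>
    simp only [GT.pend, Multiset.mem_cons] at hi
    simp only [GT.pts, Multiset.mem_cons]
    rcases hi with rfl | hi
    · exact Or.inl rfl
    · exact Or.inr (ih hi)
  | br x h g t ih =>
    simp only [GT.pend, Multiset.mem_cons] at hi
    simp only [GT.pts, Multiset.mem_cons]
    rcases hi with rfl | hi
    · exact Or.inl rfl
    · exact Or.inr (ih hi)
  | bb x h g k g' ih ih' =>
    simp only [GT.pend, Multiset.mem_add] at hi
    simp only [GT.pts, Multiset.mem_cons, Multiset.mem_add]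
    rcases hi with hi | hi
    · exact Or.inr (Or.inl (ih hi))
    · exact Or.inr (Or.inr (ih' hi))

theorem GTF_pend' (G : GT) (p : Pt) (hp : p ∈ G.pend.map Prod.fst) : p ∈ G.pts := by
  rw [Multiset.mem_map] at hp
  obtain ⟨i, hi, rfl⟩ := hp
  exact GTF_pend G i hi

theorem GTF_nodup (G : GT) (hG : G.pts.Nodup) : (G.pend.map Prod.fst).Nodup := by
  induction G with
  | leaf x => simp [GT.pend]
  | un x t => simp [GT.pend]
  | bl x s h g ih =>
    simp only [GT.pts, Multiset.nodup_cons] at hG
    simp only [GT.pend, Multiset.map_cons, Multiset.nodup_cons]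
    exact ⟨fun hx => hG.1 (GTF_pend' g x hx), ih hG.2⟩
  | br x h g t ih =>
    simp only [GT.pts, Multiset.nodup_cons] at hG
    simp only [GT.pend, Multiset.map_cons, Multiset.nodup_cons]
    exact ⟨fun hx => hG.1 (GTF_pend' g x hx), ih hG.2⟩
  | bb x h g k g' ih ih' =>
    simp only [GT.pts, Multiset.nodup_cons, Multiset.nodup_add] at hG
    simp only [GT.pend, Multiset.map_add, Multiset.nodup_add]
    refine ⟨ih hG.2.1, ih' hG.2.2.1, ?_⟩
    rw [Multiset.disjoint_left]
    intro p hp hp'
    exact (Multiset.disjoint_left.mp hG.2.2.2) (GTF_pend' g p hp) (GTF_pend' g' p hp')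

theorem GTF_att (G : GT) (u : Pt) (h : Bool) (p : Pt) (hp : p ∈ G.pts) :
    ∃ e ∈ attG u h G, e.b = p := by
  induction G generalizing u h with
  | leaf x =>
    simp only [GT.pts, Multiset.mem_singleton] at hp
    exact ⟨⟨u, x, h⟩, by simp [attG, GT.root], hp.symm⟩
  | un x t =>
    simp only [GT.pts, Multiset.mem_singleton] at hp
    exact ⟨⟨u, x, h⟩, by simp [attG, GT.root], hp.symm⟩
  | bl x s k g ih =>
    simp only [GT.pts, Multiset.mem_cons] at hp
    rcases hp with rfl | hp
    · exact ⟨⟨u, p, h⟩, by simp [attG, GT.root], rfl⟩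
    · obtain ⟨e, he, rfl⟩ := ih x k hp
      exact ⟨e, List.mem_cons_of_mem _ he, rfl⟩
  | br x k g t ih =>
    simp only [GT.pts, Multiset.mem_cons] at hp
    rcases hp with rfl | hp
    · exact ⟨⟨u, p, h⟩, by simp [attG, GT.root], rfl⟩
    · obtain ⟨e, he, rfl⟩ := ih x k hp
      exact ⟨e, List.mem_cons_of_mem _ he, rfl⟩
  | bb x k g l g' ih ih' =>
    simp only [GT.pts, Multiset.mem_cons, Multiset.mem_add] at hp
    rcases hp with rfl | hp | hp
    · exact ⟨⟨u, p, h⟩, by simp [attG, GT.root], rfl⟩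
    · obtain ⟨e, he, rfl⟩ := ih x k hp
      exact ⟨e, List.mem_cons_of_mem _ (List.mem_append_left _ he), rfl⟩
    · obtain ⟨e, he, rfl⟩ := ih' x l hp
      exact ⟨e, List.mem_cons_of_mem _ (List.mem_append_right _ he), rfl⟩

theorem GTF_mm (t : BT) : 1 ≤ t.mm := by
  unfold BT.mm
  exact Nat.le_add_left _ _

theorem GTF_bt (t : BT) : 1 ≤ t.mm ∧ 2 * t.mm ≤ t.wt + 1 ∧ 1 ≤ t.pl ∧ 1 ≤ t.lv := by
  refine ⟨GTF_mm t, ?_, ?_, ?_⟩
  · cases t with
    | leaf => simp [BT.mm, BT.pl, BT.wt]
    | un t => simp [BT.mm, BT.pl, BT.wt]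
    | br s t =>
      simp only [BT.wt]
      omega
  · cases t with
    | leaf => simp [BT.pl]
    | un t => simp [BT.pl]
    | br s t =>
      simp only [BT.pl]
      split_ifs <;> omega
  · induction t with
    | leaf => simp [BT.lv]
    | un t ih => simpa [BT.lv] using ih
    | br s t ih _ =>
      simp only [BT.lv]
      omega

theorem GTF_wt (G : GT) :
    (G.pend.map (fun i => i.2.wt)).sum + 2 * G.shape.mm ≤ G.shape.wt + 1 := by
  induction G with
  | leaf x => simp [GT.pend, GT.shape, BT.mm, BT.pl, BT.wt]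
  | un x t =>
    simp [GT.pend, GT.shape, BT.mm, BT.pl, BT.wt]
  | bl x s h g ih =>
    have h1 := GTF_mm g.shape
    have h2 := GTF_mm (BT.br s g.shape)
    simp only [GT.pend, GT.shape, Multiset.map_cons, Multiset.sum_cons, BT.wt]
    omega
  | br x h g t ih =>
    have h1 := GTF_mm g.shape
    have h2 := GTF_mm (BT.br g.shape t)
    simp only [GT.pend, GT.shape, Multiset.map_cons, Multiset.sum_cons, BT.wt]
    omega
  | bb x h g k g' ih ih' =>
    have h1 := GTF_mm g.shape
    have h1' := GTF_mm g'.shape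
    have h2 := GTF_mm (BT.br g.shape g'.shape)
    simp only [GT.pend, GT.shape, Multiset.map_add, Multiset.sum_add, BT.wt]
    omega

theorem GTF_size (G : GT) : (G.pend.map (fun i => i.2.size)).sum + 1 ≤ G.shape.size := by
  induction G with
  | leaf x => simp [GT.pend, GT.shape, BT.size]
  | un x t => simp [GT.pend, GT.shape, BT.size]
  | bl x s h g ih =>
    simp only [GT.pend, GT.shape, Multiset.map_cons, Multiset.sum_cons, BT.size]
    omega
  | br x h g t ih =>
    simp only [GT.pend, GT.shape, Multiset.map_cons, Multiset.sum_cons, BT.size]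
    omega
  | bb x h g k g' ih ih' =>
    simp only [GT.pend, GT.shape, Multiset.map_add, Multiset.sum_add, BT.size]
    omega

theorem GTF : GTF_stmt :=
  ⟨GTF_root, GTF_edges, GTF_pend, GTF_nodup, GTF_wt, GTF_size, GTF_att, GTF_bt⟩

end LSH.Lin
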