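import Pool.Agent.helper66.LIN.Spec

set_option autoImplicit false

/-! Row lin:NDR (MP_60c1a7_co): the gadget is on the left of the new front -/

namespace LSH.Lin

theorem NDR (hRGN : RGN_stmt) (hNSG : NSG_stmt) : NDR_stmt := by
  intro P L₀ σ X u t up x₁ q G hS e he z hz
  obtain ⟨n1, n2, n3, n4⟩ := hNSG P L₀ σ X u t up x₁ q G hS
  obtain ⟨-, r2, r3⟩ := hRGN P ((u, t) ::ₘ L₀) σ X u t up x₁ G hS.cfg
    (Multiset.mem_cons_self _ _) hS.gad e he z hz
  by_cases h : ∃ i ∈ G.pend, i.1.2 = z.2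
  · obtain ⟨i, hi, hiz⟩ := h
    rw [← hiz, n1 i hi]
    exact hS.gad.ray i hi e he z hz hiz.symm
  · push Not at h
    rw [n2 z.2 r3 h]
    exact r2

end LSH.Lin
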