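import Pool.Agent.helper72.LIN.GTF

set_option autoImplicit false

/-! Row lin:NVC (MP_60c1a7_co): the fields vis and const of the new configuration -/

namespace LSH.Lin

theorem NVC (hNSG : NSG_stmt) (hVLM : VLM_stmt) : NVC_stmt := by
  intro P L₀ σ X u t up x₁ q G hS
  obtain ⟨n1, n2, n3, n4⟩ := hNSG P L₀ σ X u t up x₁ q G hS
  obtain ⟨v1, v2, v3, v4, v5⟩ := hVLM P L₀ σ X u t up x₁ q G hS
  have hL : ∀ i ∈ L₀, i ∈ (u, t) ::ₘ L₀ := fun i hi => Multiset.mem_cons_of_mem hi
  refine ⟨?_, ?_⟩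
  · intro i hi y hv
    by_cases hvu : Vis ((u, t) ::ₘ L₀) u y
    · by_cases h : ∃ j ∈ G.pend, j.1.2 = y
      · obtain ⟨j, hj, hjy⟩ := h
        have h1 : j.1 = i.1 := by
          by_contra hne
          refine hv j (Multiset.mem_add.mpr (Or.inr hj)) hne ?_
          rw [hjy]
          exact Set.right_mem_uIcc
        rw [← hjy, n1 j hj, h1]
      · push Not at h
        rw [n2 y hvu h]
        rcases Multiset.mem_add.mp hi with hi | hi
        · rw [← hS.cfg.live i (hL i hi)]
          exact (hS.cfg.sweep _).trans hS.ch.lt.le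
        · have h1 := hS.gad.pts i.1 (GTF_pend G i hi)
          simp only [avs, Finset.mem_filter] at h1
          exact h1.2.2.1
    · rw [n3 y hvu]
      rcases Multiset.mem_add.mp hi with hi | hi
      · exact hS.cfg.vis i (hL i hi) y (v2 i hi y hv hvu)
      · exact absurd (v3 i hi y hv) hvu
  · intro y y' hy
    have hnp : ∀ i ∈ G.pend, i.1.2 ≠ y := fun i hi h => hy i (Multiset.mem_add.mpr (Or.inr hi))
      (by rw [h]; exact Set.left_mem_uIcc)
    have hnp' : ∀ i ∈ G.pend, i.1.2 ≠ y' := fun i hi h => hy i (Multiset.mem_add.mpr (Or.inr hi))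
      (by rw [h]; exact Set.right_mem_uIcc)
    by_cases hvu : Vis ((u, t) ::ₘ L₀) u y
    · rw [n2 y hvu hnp, n2 y' (v4 y y' hy hvu) hnp']
    · have hvu' : ¬ Vis ((u, t) ::ₘ L₀) u y' := fun h => hvu (v4 y' y (fun i hi => by
        rw [Set.uIcc_comm]
        exact hy i hi) h)
      rw [n3 y hvu, n3 y' hvu']
      refine hS.cfg.const y y' fun i hi => ?_
      rcases Multiset.mem_cons.mp hi with rfl | hi
      · exact v5 y y' hy hvu
      · exact hy i (Multiset.mem_add.mpr (Or.inl hi))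

end LSH.Lin
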