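import Pool.Agent.helper66.LIN.Spec

set_option autoImplicit false

/-! Row lin:VLM (MP_60c1a7_co): visibility before and after a step -/

namespace LSH.Lin

theorem VLM_between {a b y : ℝ} (h1 : a ∈ Set.uIcc b y) (h2 : b ∈ Set.uIcc a y) : a = b := by
  rw [Set.mem_uIcc] at h1 h2
  rcases h1 with h1 | h1 <;> rcases h2 with h2 | h2 <;> linarith [h1.1, h1.2, h2.1, h2.2]

theorem VLM (hGTF : GTF_stmt) : VLM_stmt := by
  intro P L₀ σ X u t up x₁ q G hS
  obtain ⟨-, -, g3, -, -, -, -, -⟩ := hGTF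
  have hav : ∀ i ∈ G.pend, σ i.1.2 < i.1.1 ∧ Vis ((u, t) ::ₘ L₀) u i.1.2 := by
    intro i hi
    have h1 := hS.gad.pts i.1 (g3 G i hi)
    simp only [avs, Finset.mem_filter] at h1
    exact ⟨h1.2.1, h1.2.2.2.1⟩
  have hnd := hS.cfg.nd
  rw [Multiset.map_cons, Multiset.nodup_cons] at hnd
  have hne : ∀ i ∈ L₀, i.1 ≠ u := by
    intro i hi h
    exact hnd.1 (by
      change u ∈ _
      rw [← h]
      exact Multiset.mem_map_of_mem Prod.fst hi)
  have hL : ∀ i ∈ L₀, i ∈ (u, t) ::ₘ L₀ := fun i hi => Multiset.mem_cons_of_mem hi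
  have hu : (u, t) ∈ (u, t) ::ₘ L₀ := Multiset.mem_cons_self _ _
  have hcase : ∀ k ∈ (u, t) ::ₘ L₀, k.1 ≠ u → k ∈ L₀ := by
    intro k hk hku
    rcases Multiset.mem_cons.mp hk with rfl | h
    · exact absurd rfl hku
    · exact h
  have h1 : ∀ i ∈ L₀, i.1 ≠ u ∧ (∀ j ∈ G.pend, i.1 ≠ j.1) ∧ ¬ Vis ((u, t) ::ₘ L₀) u i.1.2 := by
    intro i hi
    refine ⟨hne i hi, ?_, ?_⟩
    · intro j hj hij
      have h2 := hS.cfg.live i (hL i hi)
      have h3 := (hav j hj).1
      rw [← hij, h2] at h3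
      exact lt_irrefl _ h3
    · intro hv
      exact hv i (hL i hi) (hne i hi) Set.right_mem_uIcc
  refine ⟨h1, ?_, ?_, ?_, ?_⟩
  · intro i hi y hv hnv j hj hji
    rcases Multiset.mem_cons.mp hj with rfl | hj0
    · intro hmem
      apply hnv
      intro k hk hku hk2
      have hk0 := hcase k hk hku
      by_cases hki : k.1 = i.1
      · rw [hki] at hk2
        have h2 : i.1.2 = u.2 := VLM_between hk2 hmem
        have h3 := hS.cfg.gen
        have h4 : i.1 ∈ (P : Set Pt) := hS.cfg.mem i (hL i hi)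
        have h5 : u ∈ (P : Set Pt) := hS.cfg.mem (u, t) hu
        exact absurd h2 ((h3 i.1 h4 u h5 (hne i hi)).2)
      · exact hv k (Multiset.mem_add.mpr (Or.inl hk0)) hki
          (Set.uIcc_subset_uIcc hmem Set.right_mem_uIcc hk2)
    · exact hv j (Multiset.mem_add.mpr (Or.inl hj0)) hji
  · intro i hi y hv k hk hku hk2
    have hk0 := hcase k hk hku
    rcases Set.uIcc_subset_uIcc_union_uIcc (b := i.1.2) hk2 with h2 | h2
    · exact (hav i hi).2 k hk hku h2
    · exact hv k (Multiset.mem_add.mpr (Or.inl hk0)) ((h1 k hk0).2.1 i hi) h2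
  · intro y y' hy hv k hk hku hk2
    have hk0 := hcase k hk hku
    rcases Set.uIcc_subset_uIcc_union_uIcc (b := y) hk2 with h2 | h2
    · exact hv k hk hku h2
    · exact hy k (Multiset.mem_add.mpr (Or.inl hk0)) h2
  · intro y y' hy hnv hmem
    apply hnv
    intro k hk hku hk2
    have hk0 := hcase k hk hku
    exact hy k (Multiset.mem_add.mpr (Or.inl hk0))
      (Set.uIcc_subset_uIcc hmem Set.left_mem_uIcc hk2)

end LSH.Lin
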